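import Pool.Agent.Lib_MP_8d0ff6_al.FinCase

/-!
# Metrizable group topologies on the infinite symmetric group

We prove that the metrizable group topologies on the group of all permutations of a countably
infinite set are exactly the four standard ones.
-/

namespace Pool.Agent.Results.MP_8d0ff6_al.FourTopologies

open Equiv Set Filter Topology Pool.Agent.Lib_MP_8d0ff6_al

/-- The finitary permutations of `Ω` (those moving finitely many points). -/
def finitary (Ω : Type*) : Subgroup (Perm Ω) where
  carrier := {g | {x | g x ≠ x}.Finite}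
  one_mem' := by simp
  mul_mem' := by
    intro g h hg hh
    refine (hg.union hh).subset ?_
    intro x hx
    by_contra hc
    simp only [mem_union, Set.mem_ofPred_eq, not_or, not_not] at hc
    exact hx (by rw [Perm.mul_apply, hc.2, hc.1])
  inv_mem' := by
    intro g hg
    refine Set.Finite.subset hg ?_
    intro x hx hc
    exact hx (by rw [Perm.inv_eq_iff_eq]; exact hc.symm)

/-- The finitary even permutations of `Ω`: the products of an even number of transpositions. -/
def finitaryEven (Ω : Type*) [DecidableEq Ω] : Subgroup (Perm Ω) where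
  carrier := {g | ∃ l : List (Perm Ω), (∀ t ∈ l, t.IsSwap) ∧ Even l.length ∧ l.prod = g}
  one_mem' := ⟨[], by simp, by simp, by simp⟩
  mul_mem' := by
    rintro g h ⟨l, hl, hle, rfl⟩ ⟨l', hl', hle', rfl⟩
    refine ⟨l ++ l', ?_, by simpa using hle.add hle', by simp⟩
    intro t ht
    rcases List.mem_append.1 ht with ht | ht
    · exact hl t ht
    · exact hl' t ht
  inv_mem' := by
    rintro g ⟨l, hl, hle, rfl⟩
    refine ⟨(l.map fun t => t⁻¹).reverse, ?_, by simpa using hle, by rw [List.prod_inv_reverse]⟩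
    intro t ht
    obtain ⟨t', ht', rfl⟩ := List.mem_map.1 (List.mem_reverse.1 ht)
    obtain ⟨x, y, hxy, rfl⟩ := hl t' ht'
    exact ⟨x, y, hxy, swap_inv x y⟩

/-- The standard topology `τ_N` attached to a subgroup `N`: a set `V` is open iff for every
`g ∈ V` there is a finite set `F` of points with `g (Stab F ∩ N) ⊆ V`, where `Stab F` is the
pointwise stabiliser of `F`.  So `{Stab F ∩ N : F finite}` is a neighbourhood base of `1`. -/
@[reducible] def standardTopology {Ω : Type*} (N : Subgroup (Perm Ω)) : TopologicalSpace (Perm Ω) where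
  IsOpen V := ∀ g ∈ V, ∃ F : Set Ω, F.Finite ∧ ∀ h ∈ N, (∀ x ∈ F, h x = x) → g * h ∈ V
  isOpen_univ := fun _ _ => ⟨∅, by simp, fun _ _ _ => trivial⟩
  isOpen_inter := by
    intro V W hV hW g hg
    obtain ⟨F, hF, h1⟩ := hV g hg.1
    obtain ⟨F', hF', h2⟩ := hW g hg.2
    exact ⟨F ∪ F', hF.union hF', fun h hN hh => ⟨h1 h hN fun x hx => hh x (Or.inl hx),
      h2 h hN fun x hx => hh x (Or.inr hx)⟩⟩
  isOpen_sUnion := by
    intro S hS g hg
    obtain ⟨V, hV, hgV⟩ := hg
    obtain ⟨F, hF, h1⟩ := hS V hV g hgV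
    exact ⟨F, hF, fun h hN hh => ⟨V, hV, h1 h hN hh⟩⟩

section standard

variable {Ω : Type*} (N : Subgroup (Perm Ω))

lemma isOpen_standard_iff {V : Set (Perm Ω)} : @IsOpen _ (standardTopology N) V ↔
    ∀ g ∈ V, ∃ F : Set Ω, F.Finite ∧ ∀ h ∈ N, (∀ x ∈ F, h x = x) → g * h ∈ V := Iff.rfl

lemma mem_nhds_standard_iff {V : Set (Perm Ω)} {g : Perm Ω} :
    V ∈ @nhds _ (standardTopology N) g ↔
      ∃ F : Set Ω, F.Finite ∧ ∀ h ∈ N, (∀ x ∈ F, h x = x) → g * h ∈ V := by
  let _ := standardTopology N
  constructor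
  · intro hV
    obtain ⟨t, htV, ht, hgt⟩ := mem_nhds_iff.1 hV
    obtain ⟨F, hF, h⟩ := (isOpen_standard_iff N).1 ht g hgt
    exact ⟨F, hF, fun k hk hkF => htV (h k hk hkF)⟩
  · rintro ⟨F, hF, h⟩
    refine mem_nhds_iff.2 ⟨{k | ∃ n ∈ N, (∀ x ∈ F, n x = x) ∧ k = g * n}, ?_, ?_, ?_⟩
    · rintro _ ⟨n, hn, hnF, rfl⟩
      exact h n hn hnF
    · apply (isOpen_standard_iff N).2
      rintro _ ⟨n, hn, hnF, rfl⟩
      refine ⟨F, hF, fun k hk hkF => ⟨n * k, N.mul_mem hn hk, ?_, mul_assoc _ _ _⟩⟩
      intro x hx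
      rw [Perm.mul_apply, hkF x hx, hnF x hx]
    · exact ⟨1, N.one_mem, fun _ _ => rfl, (mul_one g).symm⟩

/-- The standard topology of a normal subgroup is a group topology. -/
lemma isTopologicalGroup_standard [hN : N.Normal] :
    @IsTopologicalGroup (Perm Ω) (standardTopology N) _ := by
  let _ := standardTopology N
  have hmul : ContinuousMul (Perm Ω) := by
    constructor
    rw [continuous_iff_continuousAt]
    rintro ⟨g, h⟩ V hV
    obtain ⟨F, hF, hV⟩ := (mem_nhds_standard_iff N).1 hV
    rw [Filter.mem_map, nhds_prod_eq]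
    refine Filter.mem_of_superset (Filter.prod_mem_prod
      (s := {k | ∃ n ∈ N, (∀ x ∈ h '' F, n x = x) ∧ k = g * n})
      (t := {k | ∃ n ∈ N, (∀ x ∈ F, n x = x) ∧ k = h * n})
      ((mem_nhds_standard_iff N).2 ⟨h '' F, hF.image h, fun n hn hnF => ⟨n, hn, hnF, rfl⟩⟩)
      ((mem_nhds_standard_iff N).2 ⟨F, hF, fun n hn hnF => ⟨n, hn, hnF, rfl⟩⟩)) ?_
    rintro ⟨_, _⟩ ⟨⟨a, ha, haF, rfl⟩, ⟨b, hb, hbF, rfl⟩⟩
    have h1 : g * a * (h * b) = g * h * ((h⁻¹ * a * h⁻¹⁻¹) * b) := by group
    change g * a * (h * b) ∈ V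
    rw [h1]
    refine hV _ (N.mul_mem (hN.conj_mem a ha h⁻¹) hb) ?_
    intro x hx
    have h2 : a (h x) = h x := haF _ ⟨x, hx, rfl⟩
    rw [Perm.mul_apply, hbF x hx, inv_inv, Perm.mul_apply, Perm.mul_apply, h2, inv_app]
  have hinv : ContinuousInv (Perm Ω) := by
    constructor
    rw [continuous_iff_continuousAt]
    intro g V hV
    obtain ⟨F, hF, hV⟩ := (mem_nhds_standard_iff N).1 hV
    rw [Filter.mem_map]
    have hnb : {k | ∃ n ∈ N, (∀ x ∈ (fun y => g⁻¹ y) '' F, n x = x) ∧ k = g * n} ∈ 𝓝 g :=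
      (mem_nhds_standard_iff N).2
        ⟨(fun y => g⁻¹ y) '' F, hF.image _, fun n hn hnF => ⟨n, hn, hnF, rfl⟩⟩
    refine Filter.mem_of_superset hnb ?_
    rintro _ ⟨a, ha, haF, rfl⟩
    have h1 : (g * a)⁻¹ = g⁻¹ * (g * a⁻¹ * g⁻¹) := by group
    change (g * a)⁻¹ ∈ V
    rw [h1]
    refine hV _ (hN.conj_mem _ (N.inv_mem ha) g) ?_
    intro x hx
    have h2 : a (g⁻¹ x) = g⁻¹ x := haF _ ⟨x, hx, rfl⟩
    have h3 : a⁻¹ (g⁻¹ x) = g⁻¹ x := by rw [Perm.inv_eq_iff_eq]; exact h2.symm
    rw [Perm.mul_apply, Perm.mul_apply, h3, app_inv]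
  exact { hmul, hinv with }

/-- The standard topology of a normal subgroup is metrizable. -/
lemma metrizable_standard [Countable Ω] [hN : N.Normal] :
    @TopologicalSpace.MetrizableSpace (Perm Ω) (standardTopology N) := by
  let _ := standardTopology N
  have := isTopologicalGroup_standard N
  have hT2 : T2Space (Perm Ω) := by
    constructor
    intro g h hgh
    obtain ⟨x, hx⟩ : ∃ x, g x ≠ h x := by
      by_contra hc
      push Not at hc
      exact hgh (Equiv.ext hc)
    have ho : ∀ y, IsOpen {k : Perm Ω | k x = y} := by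
      intro y
      apply (isOpen_standard_iff N).2
      intro k hk
      refine ⟨{x}, Set.finite_singleton x, fun n _ hn => ?_⟩
      have : n x = x := hn x rfl
      change (k * n) x = y
      rw [Perm.mul_apply, this]
      exact hk
    refine ⟨_, _, ho (g x), ho (h x), rfl, rfl, ?_⟩
    rw [Set.disjoint_left]
    intro k hk hk'
    have h1 : k x = g x := hk
    have h2 : k x = h x := hk'
    exact hx (h1.symm.trans h2)
  have hcount : (𝓝 (1 : Perm Ω)).IsCountablyGenerated := by
    have hb : (𝓝 (1 : Perm Ω)).HasBasis (fun _ : Finset Ω => True)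
        (fun F => {n | n ∈ N ∧ ∀ x ∈ F, n x = x}) := by
      constructor
      intro V
      rw [mem_nhds_standard_iff]
      constructor
      · rintro ⟨F, hF, h⟩
        refine ⟨hF.toFinset, trivial, ?_⟩
        rintro n ⟨hn, hnF⟩
        have := h n hn (fun x hx => hnF x (hF.mem_toFinset.2 hx))
        rwa [one_mul] at this
      · rintro ⟨F, -, h⟩
        refine ⟨F, F.finite_toSet, fun n hn hnF => ?_⟩
        rw [one_mul]
        exact h ⟨hn, fun x hx => hnF x hx⟩
    exact hb.isCountablyGenerated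
  let _ : UniformSpace (Perm Ω) := IsTopologicalGroup.rightUniformSpace (Perm Ω)
  have : (uniformity (Perm Ω)).IsCountablyGenerated := by
    rw [uniformity_eq_comap_nhds_one' (Perm Ω)]
    exact Filter.comap.isCountablyGenerated _ _
  exact UniformSpace.metrizableSpace

end standard

section classify

variable {Ω : Type*}

instance finitary_normal : (finitary Ω).Normal := by
  constructor
  intro n hn g
  have hn' : {x | n x ≠ x}.Finite := hn
  refine (hn'.image g).subset ?_
  intro x hx
  refine ⟨g⁻¹ x, ?_, app_inv g x⟩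
  intro h
  apply hx
  rw [Perm.mul_apply, Perm.mul_apply, h, app_inv]

instance finitaryEven_normal [DecidableEq Ω] : (finitaryEven Ω).Normal := by
  constructor
  rintro _ ⟨l, hl, hle, rfl⟩ g
  refine ⟨l.map (MulAut.conj g), ?_, by simpa using hle, by
    exact List.prod_hom l (MulAut.conj g)⟩
  intro t ht
  obtain ⟨t', ht', rfl⟩ := List.mem_map.1 ht
  obtain ⟨x, y, hxy, rfl⟩ := hl t' ht'
  refine ⟨g x, g y, g.injective.ne hxy, ?_⟩
  rw [MulAut.conj_apply, Equiv.mul_swap_eq_swap_mul, mul_inv_cancel_right]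

/-- Every finitary permutation is a product of transpositions. -/
lemma exists_swaps [DecidableEq Ω] {w : Perm Ω} (hw : w ∈ finitary Ω) :
    ∃ l : List (Perm Ω), (∀ t ∈ l, t.IsSwap) ∧ l.prod = w := by
  classical
  have hw' : {x | w x ≠ x}.Finite := hw
  let s : Finset Ω := hw'.toFinset
  have hs : ∀ x, x ∈ s ↔ w x ≠ x := fun x => by simp [s]
  have h1 : ∀ x, w x ∈ s ↔ x ∈ s := by
    intro x
    rw [hs, hs]
    exact w.injective.ne_iff
  let w' : Perm s := w.subtypePerm h1
  obtain ⟨l, hl, hl'⟩ := (Perm.truncSwapFactors w').out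
  refine ⟨l.map (Perm.ofSubtype (p := fun x => x ∈ s)), ?_, ?_⟩
  · intro t ht
    obtain ⟨t', ht', rfl⟩ := List.mem_map.1 ht
    exact (hl' t' ht').of_subtype_isSwap
  · rw [List.prod_hom, hl]
    exact Perm.ofSubtype_subtypePerm h1 (fun x hx => (hs x).2 hx)

lemma identify {τ : TopologicalSpace (Perm Ω)} (hg : @IsTopologicalGroup (Perm Ω) τ _)
    (N : Subgroup (Perm Ω)) (hN : (N : Set (Perm Ω)) ∈ @nhds _ τ 1)
    (hfix : ∀ F : Set Ω, F.Finite → {g : Perm Ω | ∀ x ∈ F, g x = x} ∈ @nhds _ τ 1)
    (hsmall : ∀ V ∈ @nhds _ τ (1 : Perm Ω), ∃ F : Set Ω, F.Finite ∧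
      ∀ h ∈ N, (∀ x ∈ F, h x = x) → h ∈ V) : τ = standardTopology N := by
  let _ := τ
  apply TopologicalSpace.ext
  ext V
  change IsOpen V ↔ @IsOpen _ (standardTopology N) V
  rw [isOpen_iff_mem_nhds, isOpen_standard_iff]
  constructor
  · intro h g hgV
    have h1 : {k : Perm Ω | g * k ∈ V} ∈ 𝓝 (1 : Perm Ω) := by
      have : Tendsto (fun k : Perm Ω => g * k) (𝓝 1) (𝓝 g) := by
        have hc : Continuous (fun k : Perm Ω => g * k) := continuous_const_mul g
        simpa using hc.tendsto 1
      exact this (h g hgV)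
    exact hsmall _ h1
  · intro h g hgV
    obtain ⟨F, hF, hFV⟩ := h g hgV
    have h1 : {k : Perm Ω | g * k ∈ V} ∈ 𝓝 (1 : Perm Ω) :=
      Filter.mem_of_superset (inter_mem hN (hfix F hF)) fun k hk => hFV k hk.1 hk.2
    have h2 : Tendsto (fun k : Perm Ω => g⁻¹ * k) (𝓝 g) (𝓝 1) := by
      have hc : Continuous (fun k : Perm Ω => g⁻¹ * k) := continuous_const_mul _
      simpa using hc.tendsto g
    have h3 := h2 h1
    rw [Filter.mem_map] at h3
    simpa using h3

/-- Classification: every first-countable Hausdorff group topology is standard. -/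
lemma classification [Countable Ω] [Infinite Ω] [DecidableEq Ω] (τ : TopologicalSpace (Perm Ω))
    (hg : @IsTopologicalGroup (Perm Ω) τ _) (hT : @T2Space (Perm Ω) τ)
    (hfc : @FirstCountableTopology (Perm Ω) τ) :
    τ = standardTopology ⊥ ∨ τ = standardTopology (finitaryEven Ω) ∨
      τ = standardTopology (finitary Ω) ∨ τ = standardTopology ⊤ := by
  let _ := τ
  have hfix : ∀ F : Set Ω, F.Finite → {g : Perm Ω | ∀ x ∈ F, g x = x} ∈ 𝓝 (1 : Perm Ω) :=
    fun F hF => eventually_fix_finite hF
  have hsupp : ∀ (F : Set Ω) (h : Perm Ω), (∀ x ∈ F, h x = x) → SuppIn Fᶜ h :=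
    fun F h hh x hx => hh x (by simpa using hx)
  by_cases hF : {g : Perm Ω | {x | g x ≠ x}.Finite} ∈ 𝓝 (1 : Perm Ω)
  · by_cases hd : ({1} : Set (Perm Ω)) ∈ 𝓝 (1 : Perm Ω)
    · left
      refine identify hg ⊥ (by simpa using hd) hfix ?_
      intro V hV
      refine ⟨∅, Set.finite_empty, fun h hh _ => ?_⟩
      rw [Subgroup.mem_bot] at hh
      rw [hh]
      exact mem_of_mem_nhds hV
    · right
      by_cases hE : ((finitaryEven Ω : Subgroup (Perm Ω)) : Set (Perm Ω)) ∈ 𝓝 (1 : Perm Ω)
      · left
        refine identify hg _ hE hfix ?_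
        intro V hV
        obtain ⟨F, hFfin, h8⟩ := step8 hF hd hV
        refine ⟨F, hFfin, ?_⟩
        rintro _ ⟨l, hl, hle, rfl⟩ hh
        exact h8 l hl hle (hsupp F _ hh)
      · right; left
        refine identify hg _ hF hfix ?_
        intro V hV
        obtain ⟨V', hV', hV'inv, hV'4⟩ := exists_fourth hV
        obtain ⟨F, hFfin, h8⟩ := step8 hF hd hV'
        -- an odd finitary permutation in `V'` fixing `F`
        obtain ⟨u, ⟨hu1, hu2, hu3⟩, hu4⟩ : ∃ u ∈ V' ∩ ({g : Perm Ω | {x | g x ≠ x}.Finite} ∩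
            {g : Perm Ω | ∀ x ∈ F, g x = x}), u ∉ finitaryEven Ω := by
          by_contra hc
          push Not at hc
          exact hE (Filter.mem_of_superset (inter_mem hV' (inter_mem hF (hfix F hFfin)))
            fun u hu => hc u hu)
        have h1 : (1 : Perm Ω) ∈ V' := mem_of_mem_nhds hV'
        refine ⟨F, hFfin, fun w hw hwF => ?_⟩
        obtain ⟨lw, hlw, hlw'⟩ := exists_swaps hw
        obtain ⟨lu, hlu, hlu'⟩ := exists_swaps (w := u) hu2
        by_cases hwe : Even lw.length
        · have h2 := h8 lw hlw hwe (by rw [hlw']; exact hsupp F _ hwF)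
          rw [hlw'] at h2
          have := hV'4 _ h2 _ h1 _ h1 _ h1
          simpa using this
        · have hue : ¬ Even lu.length := fun he => hu4 ⟨lu, hlu, he, hlu'⟩
          have hmem : ∀ t ∈ lw ++ lu.reverse, t.IsSwap := by
            intro t ht
            rcases List.mem_append.1 ht with ht | ht
            · exact hlw t ht
            · exact hlu t (List.mem_reverse.1 ht)
          have hev : Even (lw ++ lu.reverse).length := by
            rw [List.length_append, List.length_reverse]
            exact (Nat.not_even_iff_odd.1 hwe).add_odd (Nat.not_even_iff_odd.1 hue)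
          have hprod : (lw ++ lu.reverse).prod = w * u⁻¹ := by
            rw [List.prod_append, hlw', ← hlu', List.prod_inv_reverse]
            congr 2
            have : lu.map (fun x => x⁻¹) = lu := by
              conv_rhs => rw [← List.map_id lu]
              apply List.map_congr_left
              intro t ht
              obtain ⟨x, y, hxy, rfl⟩ := hlu t ht
              exact swap_inv x y
            rw [this]
          have hsup : SuppIn Fᶜ (w * u⁻¹) := (hsupp F _ hwF).mul (hsupp F _ hu3).inv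
          have h2 := h8 _ hmem hev (by rw [hprod]; exact hsup)
          rw [hprod] at h2
          have := hV'4 _ h2 _ hu1 _ h1 _ h1
          simpa using this
  · right; right; right
    refine identify hg ⊤ (by simp) hfix ?_
    intro V hV
    obtain ⟨F, hFfin, h4⟩ := step4 hF hV
    exact ⟨F, hFfin, fun h _ hh => h4 h (hsupp F h hh)⟩

end classify

/-- **Main theorem.** For a countably infinite set `Ω`, a topology on the group `Perm Ω` of all
permutations of `Ω` is a metrizable group topology if and only if it is one of the four standard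
topologies `τ_N`, `N` being trivial, the finitary even, the finitary, or all permutations. -/
theorem result (Ω : Type*) [Countable Ω] [Infinite Ω] [DecidableEq Ω]
    (τ : TopologicalSpace (Perm Ω)) :
    (@IsTopologicalGroup (Perm Ω) τ _ ∧ @TopologicalSpace.MetrizableSpace (Perm Ω) τ) ↔
      (τ = standardTopology ⊥ ∨ τ = standardTopology (finitaryEven Ω) ∨
        τ = standardTopology (finitary Ω) ∨ τ = standardTopology ⊤) := by
  constructor
  · rintro ⟨hg, hm⟩
    let _ := τ
    exact classification τ hg inferInstance inferInstance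
  · rintro (rfl | rfl | rfl | rfl)
    · exact ⟨isTopologicalGroup_standard _, metrizable_standard _⟩
    · exact ⟨isTopologicalGroup_standard _, metrizable_standard _⟩
    · exact ⟨isTopologicalGroup_standard _, metrizable_standard _⟩
    · exact ⟨isTopologicalGroup_standard _, metrizable_standard _⟩

end Pool.Agent.Results.MP_8d0ff6_al.FourTopologies
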